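import Pool.Agent.H70.EH.Targets

set_option autoImplicit false

namespace Pool.Agent.H17.EH

open Finset Pool.Agent.H6.NB Pool.Agent.H70.EH

theorem pow_est (q : ℕ) (hq : 100 ≤ q) : 8192 * (q + 3) ^ 2 ≤ 2 ^ q := by
  induction q, hq using Nat.le_induction with
  | base => norm_num
  | succ q hq ih =>
    rw [pow_succ 2 q]
    have : (q + 1 + 3) ^ 2 ≤ (q + 3) ^ 2 * 2 := by nlinarith
    calc 8192 * (q + 1 + 3) ^ 2 ≤ 8192 * ((q + 3) ^ 2 * 2) := Nat.mul_le_mul_left _ this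
      _ = 8192 * (q + 3) ^ 2 * 2 := by ring
      _ ≤ 2 ^ q * 2 := Nat.mul_le_mul_right _ ih

/-- CHE: the copies say the bit `b` with high probability. -/
theorem che (h1 : T_CHA) (h2 : T_PHV) (h3 : T_MUV) (h4 : T_PHB) (h5 : T_PHU) : T_CHE := by
  classical
  intro U _ _ _ q b hq
  have hg : ∀ p : VV q → Bool, 0 ≤ phi q p ^ 2 ∧ phi q p ^ 2 ≤ 1 := fun p =>
    ⟨sq_nonneg _, (sq_le_one_iff_abs_le_one _).2 (h4 q p)⟩
  obtain ⟨hm0, hm1, -⟩ := h3 b q
  have hn : (0 : ℝ) ≤ Fintype.card U := Nat.cast_nonneg _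
  have he : 0 < eps2 q := by unfold eps2; positivity
  cases b with
  | false =>
    obtain ⟨hA, -⟩ := h1 U (VV q → Bool) (mv false q) (fun p => phi q p ^ 2) (eps2 q ^ 2 / 32)
      hm0 hm1 hg (by positivity)
    have hmean : ∑ p, mv false q p * phi q p ^ 2 ≤ eps2 q ^ 2 / 32 / 4 := by
      have e1 : ∑ p, mv false q p * phi q p ^ 2 = 1 / 2 ^ q := h5 q
      rw [e1]
      unfold eps2
      have e2 : (1 / (8 * ((q : ℝ) + 3))) ^ 2 / 32 / 4 = 1 / (8192 * ((q : ℝ) + 3) ^ 2) := by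
        field_simp
        norm_num
      rw [e2]
      have e3 : (8192 * ((q : ℝ) + 3) ^ 2) ≤ 2 ^ q := by exact_mod_cast pow_est q hq
      exact one_div_le_one_div_of_le (by positivity) e3
    have h := hA hmean
    have e4 : (Fintype.card U : ℝ) * (eps2 q ^ 2 / 32) / 2 = Fintype.card U * eps2 q ^ 2 / 64 := by
      ring
    rw [e4] at h
    refine le_trans (le_of_eq (sum_congr rfl fun P _ => ?_)) h
    congr 1
    have e5 : Says q false P ↔ (∑ u, phi q (P u) ^ 2) / (Fintype.card U : ℝ) ≤ eps2 q ^ 2 / 32 := by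
      unfold Says avg
      simp
    by_cases hs : Says q false P
    · rw [if_pos hs, if_pos (e5.1 hs)]
    · rw [if_neg hs, if_neg fun h => hs (e5.2 h)]
  | true =>
    obtain ⟨-, hA⟩ := h1 U (VV q → Bool) (mv true q) (fun p => phi q p ^ 2) (eps2 q ^ 2 / 4)
      hm0 hm1 hg (by positivity)
    have h := hA (h2 q)
    have e4 : Real.exp (-((Fintype.card U : ℝ) * (eps2 q ^ 2 / 4) / 8)) ≤
        Real.exp (-(Fintype.card U * eps2 q ^ 2 / 64)) := by
      apply Real.exp_le_exp.2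
      have : 0 ≤ (Fintype.card U : ℝ) * eps2 q ^ 2 := by positivity
      linarith
    refine le_trans (le_of_eq (sum_congr rfl fun P _ => ?_)) (h.trans e4)
    congr 1
    have e5 : Says q true P ↔
        eps2 q ^ 2 / 4 / 2 ≤ (∑ u, phi q (P u) ^ 2) / (Fintype.card U : ℝ) := by
      unfold Says avg
      have : eps2 q ^ 2 / 4 / 2 = eps2 q ^ 2 / 8 := by ring
      rw [this]
      simp
    by_cases hs : Says q true P
    · rw [if_pos hs, if_pos (e5.1 hs)]
    · rw [if_neg hs, if_neg fun h => hs (e5.2 h)]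

end Pool.Agent.H17.EH
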