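import Pool.Agent.H70.EH.Targets

set_option autoImplicit false

namespace Pool.Agent.H17.EH

open Pool.Agent.H70.EH

/-- CMP: compactness. -/
theorem cmp : T_CMP := by
  classical
  intro ι C hloc hfin
  have hclosed : ∀ i, IsClosed {O : List Bool → Bool | C i O} := by
    intro i
    obtain ⟨l, hl⟩ := hloc i
    have hS : Set.Finite {w : List Bool | w.length ≤ l} := List.finite_length_le Bool l
    refine ⟨isOpen_iff_mem_nhds.2 fun O hO => ?_⟩
    have hU : {O' : List Bool → Bool | ∀ w ∈ {w : List Bool | w.length ≤ l}, O' w = O w} ∈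
        nhds O := by
      refine IsOpen.mem_nhds ?_ fun w _ => rfl
      have : {O' : List Bool → Bool | ∀ w ∈ {w : List Bool | w.length ≤ l}, O' w = O w} =
          ⋂ w ∈ {w : List Bool | w.length ≤ l}, {O' | O' w = O w} := by
        ext O'
        simp
      rw [this]
      refine hS.isOpen_biInter fun w _ => ?_
      have h : IsOpen ((fun O' : List Bool → Bool => O' w) ⁻¹' {O w}) :=
        IsOpen.preimage (continuous_apply w) (isOpen_discrete _)
      exact h
    refine Filter.mem_of_superset hU fun O' hO' hC => hO ?_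
    exact (hl O' O fun w hw => hO' w hw).1 hC
  have := CompactSpace.iInter_nonempty (X := List Bool → Bool) (t := fun i => {O | C i O}) hclosed
    (fun E => by
      obtain ⟨O, hO⟩ := hfin E
      exact ⟨O, Set.mem_iInter₂.2 hO⟩)
  obtain ⟨O, hO⟩ := this
  exact ⟨O, fun i => Set.mem_iInter.1 hO i⟩

end Pool.Agent.H17.EH
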