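import Pool.Agent.H90.EH.Targets

set_option autoImplicit false

namespace Pool.Agent.H17.EH

open Finset Pool.Agent.H90.EH
open scoped Classical

theorem pf_GW0 : T_GW0 := by
  intro V _ _ A
  set e : V → ℕ := fun a => if h : a ∈ A then (A.equivFin ⟨a, h⟩ : ℕ) else 0 with he
  have hinj : ∀ a ∈ A, ∀ b ∈ A, e a = e b → a = b := by
    intro a ha b hb hab
    simp only [he, dif_pos ha, dif_pos hb] at hab
    have h1 := A.equivFin.injective (Fin.ext hab)
    exact congrArg Subtype.val h1
  set P : Finset V → V → Polynomial ℚ := fun B a =>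
    Polynomial.X ^ (e a) - ∑ b ∈ B, Polynomial.C (co B a b) * Polynomial.X ^ (e b) with hP
  have hne : ∀ B, B ⊆ A → ∀ a ∈ A, a ∉ B → P B a ≠ 0 := by
    intro B hB a ha haB h0
    have h1 : (P B a).coeff (e a) = 0 := by rw [h0, Polynomial.coeff_zero]
    rw [hP] at h1
    simp only [Polynomial.coeff_sub, Polynomial.coeff_X_pow, Polynomial.finsetSum_coeff,
      Polynomial.coeff_C_mul] at h1
    rw [if_pos trivial, Finset.sum_eq_zero] at h1
    · norm_num at h1
    · intro b hb
      rw [if_neg, mul_zero]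
      intro hab
      exact haB ((hinj a ha b (hB hb) hab) ▸ hb)
  have hQ : (∏ B ∈ A.powerset, ∏ a ∈ A \ B, P B a) ≠ 0 := by
    rw [Finset.prod_ne_zero_iff]
    intro B hB
    rw [Finset.prod_ne_zero_iff]
    intro a ha
    rw [Finset.mem_sdiff] at ha
    exact hne B (Finset.mem_powerset.1 hB) a ha.1 ha.2
  obtain ⟨t, ht⟩ : ∃ t : ℚ, Polynomial.eval t (∏ B ∈ A.powerset, ∏ a ∈ A \ B, P B a) ≠ 0 := by
    by_contra hcon
    push Not at hcon
    exact hQ (Polynomial.funext fun t => by rw [hcon t, Polynomial.eval_zero])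
  refine ⟨fun a => t ^ (e a), ?_⟩
  intro B hB a ha haB heq
  apply ht
  rw [Polynomial.eval_prod]
  apply Finset.prod_eq_zero (Finset.mem_powerset.2 hB.1)
  rw [Polynomial.eval_prod]
  apply Finset.prod_eq_zero (Finset.mem_sdiff.2 ⟨ha, haB⟩)
  rw [hP]
  simp only [Polynomial.eval_sub, Polynomial.eval_pow, Polynomial.eval_X,
    Polynomial.eval_finsetSum, Polynomial.eval_mul, Polynomial.eval_C]
  linarith

end Pool.Agent.H17.EH
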