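import Pool.Agent.H90.EH.Targets

set_option autoImplicit false

namespace Pool.Agent.H17.EH

open Finset Pool.Agent.H90.EH
open scoped Classical

section

variable {V : Type} [AddCommGroup V] [Module ℚ V]

/-- the family is independent modulo the span of AF, up to constant rows -/
def SInd (ψ : V →ₗ[ℚ] V) (AF : Finset V) (p k : ℕ) (a : Fin k → V) : Prop :=
  ∀ e : Fin k → Fin p → ℚ, ∑ j, ∑ i, e j i • (ψ ^ (i : ℕ)) (a j) ∈ Sp AF →
    ∀ j i i', e j i = e j i'

/-- the span of AF and of all the vectors of the family -/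
noncomputable def SW (ψ : V →ₗ[ℚ] V) (AF : Finset V) (p k : ℕ) (a : Fin k → V) :
    Submodule ℚ V :=
  Sp AF ⊔ Submodule.span ℚ (Set.range fun x : Fin k × Fin p => (ψ ^ (x.2 : ℕ)) (a x.1))

lemma mem_SW {ψ : V →ₗ[ℚ] V} {AF : Finset V} {p k : ℕ} {a : Fin k → V} {x : V}
    (h : x ∈ SW ψ AF p k a) :
    ∃ e : Fin k → Fin p → ℚ, x - ∑ j, ∑ i, e j i • (ψ ^ (i : ℕ)) (a j) ∈ Sp AF := by
  unfold SW at h
  rw [Submodule.mem_sup] at h
  obtain ⟨y, hy, z, hz, rfl⟩ := h
  rw [Submodule.mem_span_range_iff_exists_fun] at hz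
  obtain ⟨c, rfl⟩ := hz
  refine ⟨fun j i => c (j, i), ?_⟩
  rw [Fintype.sum_prod_type]
  simpa using hy

lemma SW_sum {ψ : V →ₗ[ℚ] V} {AF : Finset V} {p k : ℕ} {a : Fin k → V}
    (e : Fin k → Fin p → ℚ) : ∑ j, ∑ i, e j i • (ψ ^ (i : ℕ)) (a j) ∈ SW ψ AF p k a := by
  apply Submodule.sum_mem
  intro j _
  apply Submodule.sum_mem
  intro i _
  apply Submodule.smul_mem
  exact Submodule.mem_sup_right (Submodule.subset_span ⟨(j, i), rfl⟩)

lemma SW_stable {ψ : V →ₗ[ℚ] V} {AF : Finset V} {p k : ℕ} {a : Fin k → V} (hp : 0 < p)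
    (hF : ∀ x ∈ Sp AF, ψ x = x) (ha : ∀ j, (ψ ^ p) (a j) = a j) :
    ∀ x ∈ SW ψ AF p k a, ψ x ∈ SW ψ AF p k a := by
  intro x hx
  unfold SW at hx
  rw [Submodule.mem_sup] at hx
  obtain ⟨y, hy, z, hz, rfl⟩ := hx
  rw [map_add, hF y hy]
  apply Submodule.add_mem _ (Submodule.mem_sup_left hy)
  have hle : Submodule.span ℚ (Set.range fun x : Fin k × Fin p => (ψ ^ (x.2 : ℕ)) (a x.1)) ≤
      (SW ψ AF p k a).comap ψ := by
    rw [Submodule.span_le]
    rintro _ ⟨⟨j, i⟩, rfl⟩
    show ψ ((ψ ^ (i : ℕ)) (a j)) ∈ SW ψ AF p k a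
    have h1 : ψ ((ψ ^ (i : ℕ)) (a j)) = (ψ ^ ((i : ℕ) + 1)) (a j) := by
      rw [pow_succ', Module.End.mul_apply]
    rw [h1]
    by_cases hi : (i : ℕ) + 1 < p
    · exact Submodule.mem_sup_right (Submodule.subset_span ⟨(j, ⟨(i : ℕ) + 1, hi⟩), rfl⟩)
    · have h2 : (i : ℕ) + 1 = p := by have := i.2; omega
      rw [h2, ha j]
      refine Submodule.mem_sup_right (Submodule.subset_span ⟨(j, ⟨0, hp⟩), ?_⟩)
      simp
  exact hle hz

lemma SW_aeval {ψ : V →ₗ[ℚ] V} {W : Submodule ℚ V} (hW : ∀ x ∈ W, ψ x ∈ W)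
    (g : Polynomial ℚ) : ∀ x ∈ W, (Polynomial.aeval ψ g) x ∈ W := by
  induction g using Polynomial.induction_on' with
  | add f g hf hg =>
    intro x hx
    rw [map_add, LinearMap.add_apply]
    exact Submodule.add_mem _ (hf x hx) (hg x hx)
  | monomial n c =>
    intro x hx
    rw [Polynomial.aeval_monomial, Module.End.mul_apply, Module.algebraMap_end_apply]
    apply Submodule.smul_mem
    induction n with
    | zero => simpa using hx
    | succ n ih =>
      rw [pow_succ', Module.End.mul_apply]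
      exact hW _ ih

lemma sel_const {ψ : V →ₗ[ℚ] V} {W : Submodule ℚ V} {p : ℕ} (hp : p.Prime)
    (hW : ∀ x ∈ W, ψ x ∈ W) {x : V} (hx : x ∉ W)
    (hS : ∑ i : Fin p, (ψ ^ (i : ℕ)) x ∈ W) (c : Fin p → ℚ)
    (hc : ∑ i : Fin p, c i • (ψ ^ (i : ℕ)) x ∈ W) : ∀ i i', c i = c i' := by
  set f : Polynomial ℚ := ∑ i : Fin p, Polynomial.C (c i) * Polynomial.X ^ (i : ℕ) with hf
  have hfc : ∀ i : Fin p, f.coeff (i : ℕ) = c i := by
    intro i
    rw [hf, Polynomial.finsetSum_coeff]
    simp only [Polynomial.coeff_C_mul, Polynomial.coeff_X_pow]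
    rw [Finset.sum_eq_single i]
    · simp
    · intro j _ hj
      rw [if_neg, mul_zero]
      intro h
      exact hj (Fin.ext h.symm)
    · intro h
      exact absurd (Finset.mem_univ i) h
  have hfd : f.natDegree ≤ p - 1 := by
    rw [hf]
    apply Polynomial.natDegree_sum_le_of_forall_le
    intro i _
    refine (Polynomial.natDegree_C_mul_X_pow_le _ _).trans ?_
    have := i.2
    omega
  have hfx : (Polynomial.aeval ψ f) x ∈ W := by
    rw [hf, map_sum, LinearMap.sum_apply]
    have : ∀ i : Fin p, (Polynomial.aeval ψ (Polynomial.C (c i) * Polynomial.X ^ (i : ℕ))) x =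
        c i • (ψ ^ (i : ℕ)) x := by
      intro i
      rw [map_mul, Polynomial.aeval_C, map_pow, Polynomial.aeval_X, Module.End.mul_apply,
        Module.algebraMap_end_apply]
    rw [Finset.sum_congr rfl fun i _ => this i]
    exact hc
  set Φ : Polynomial ℚ := Polynomial.cyclotomic p ℚ with hΦ
  have : Fact p.Prime := ⟨hp⟩
  have hΦe : Φ = ∑ i ∈ range p, Polynomial.X ^ i := by
    rw [hΦ]; exact Polynomial.cyclotomic_prime ℚ p
  have hΦx : (Polynomial.aeval ψ Φ) x ∈ W := by
    rw [hΦe, map_sum, LinearMap.sum_apply]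
    simp only [map_pow, Polynomial.aeval_X]
    rw [← Fin.sum_univ_eq_sum_range (fun i => (ψ ^ i) x) p]
    exact hS
  have hirr : Irreducible Φ := Polynomial.cyclotomic.irreducible_rat hp.pos
  have hdvd : Φ ∣ f := by
    by_contra hnd
    have hcop : IsCoprime Φ f := (hirr.coprime_iff_not_dvd).2 hnd
    obtain ⟨u, v, huv⟩ := hcop
    apply hx
    have h1 : (Polynomial.aeval ψ (u * Φ + v * f)) x = x := by
      rw [huv, map_one, Module.End.one_apply]
    rw [← h1, map_add, LinearMap.add_apply, map_mul, map_mul, Module.End.mul_apply,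
      Module.End.mul_apply]
    exact Submodule.add_mem _ (SW_aeval hW u _ hΦx) (SW_aeval hW v _ hfx)
  obtain ⟨g, hg⟩ := hdvd
  have hmon : Φ.Monic := Polynomial.cyclotomic.monic p ℚ
  have hdeg : Φ.natDegree = p - 1 := by
    rw [hΦ, Polynomial.natDegree_cyclotomic, Nat.totient_prime hp]
  have hgC : ∃ r, g = Polynomial.C r := by
    by_cases hg0 : g = 0
    · exact ⟨0, by rw [hg0, map_zero]⟩
    · have h1 : f.natDegree = Φ.natDegree + g.natDegree := by
        rw [hg, hmon.natDegree_mul' hg0]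
      have h2 : g.natDegree = 0 := by omega
      exact ⟨_, Polynomial.eq_C_of_natDegree_eq_zero h2⟩
  obtain ⟨r, rfl⟩ := hgC
  have hall : ∀ i : Fin p, c i = r := by
    intro i
    rw [← hfc i, hg, Polynomial.coeff_mul_C, hΦe, Polynomial.finsetSum_coeff]
    simp only [Polynomial.coeff_X_pow]
    rw [Finset.sum_ite_eq, if_pos (Finset.mem_range.2 i.2), one_mul]
  intro i i'
  rw [hall i, hall i']

end

theorem pf_SEL : T_SEL := by
  intro V _ _ ψ A AF p hp hsub hstab hper hfix hcone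
  have hF : ∀ x ∈ Sp AF, ψ x = x := fun x hx => ((hfix x).1 hx).2
  have hpowA : ∀ (n : ℕ), ∀ a ∈ A, (ψ ^ n) a ∈ A := by
    intro n
    induction n with
    | zero => intro a ha; simpa using ha
    | succ n ih =>
      intro a ha
      rw [pow_succ', Module.End.mul_apply]
      exact hstab _ (ih a ha)
  have hcyc : ∀ a ∈ A, ψ (∑ i : Fin p, (ψ ^ (i : ℕ)) a) = ∑ i : Fin p, (ψ ^ (i : ℕ)) a := by
    intro a ha
    have h1 : ψ (∑ i ∈ range p, (ψ ^ i) a) = ∑ i ∈ range p, (ψ ^ i) a := by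
      rw [map_sum]
      have h2 : ∀ i, ψ ((ψ ^ i) a) = (ψ ^ (i + 1)) a := by
        intro i
        rw [pow_succ', Module.End.mul_apply]
      simp only [h2]
      have h3 := Finset.sum_range_succ (fun i => (ψ ^ i) a) p
      have h4 := Finset.sum_range_succ' (fun i => (ψ ^ i) a) p
      rw [h3, hper a ha] at h4
      simpa using h4.symm
    rwa [← Fin.sum_univ_eq_sum_range (fun i => (ψ ^ i) a) p] at h1
  have hconeS : ∀ a ∈ A, ∑ i : Fin p, (ψ ^ (i : ℕ)) a ∈ Cone A := by
    intro a ha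
    have : ∀ s : Finset (Fin p), ∑ i ∈ s, (ψ ^ (i : ℕ)) a ∈ Cone A := by
      intro s
      induction s using Finset.induction_on with
      | empty => simpa using cone_zero A
      | insert i s hi ih =>
        rw [sum_insert hi]
        exact cone_add (cone_mem (hpowA i a ha)) ih
    exact this univ
  have hSF : ∀ a ∈ A, ∑ i : Fin p, (ψ ^ (i : ℕ)) a ∈ Cone AF :=
    fun a ha => hcone _ (hconeS a ha) (hcyc a ha)
  -- the number of rows is bounded
  have hbound : ∀ k (a : Fin k → V), (∀ j, a j ∈ A) → SInd ψ AF p k a → k ≤ A.card := by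
    intro k a ha hind
    have hinj : Function.Injective a := by
      intro j j' hjj
      by_contra hne
      have h0 : (⟨0, hp.pos⟩ : Fin p) ≠ ⟨1, hp.one_lt⟩ := by
        intro h
        have := congrArg Fin.val h
        simp at this
      have h1 := hind (fun l i => if i = (⟨0, hp.pos⟩ : Fin p) then
        (if l = j then (1 : ℚ) else 0) - (if l = j' then 1 else 0) else 0) (by
        have h2 : ∀ l : Fin k, ∑ i : Fin p, (if i = (⟨0, hp.pos⟩ : Fin p) then
            (if l = j then (1 : ℚ) else 0) - (if l = j' then 1 else 0) else 0) •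
              (ψ ^ (i : ℕ)) (a l) =
            ((if l = j then (1 : ℚ) else 0) - (if l = j' then 1 else 0)) • a l := by
          intro l
          rw [Finset.sum_eq_single (⟨0, hp.pos⟩ : Fin p)]
          · simp
          · intro i _ hi
            rw [if_neg hi, zero_smul]
          · intro h
            exact absurd (Finset.mem_univ _) h
        rw [Finset.sum_congr rfl fun l _ => h2 l]
        simp only [sub_smul, Finset.sum_sub_distrib, ite_smul, one_smul, zero_smul,
          Finset.sum_ite_eq', Finset.mem_univ, if_true]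
        rw [hjj, sub_self]
        exact Submodule.zero_mem _) j ⟨0, hp.pos⟩ ⟨1, hp.one_lt⟩
      simp only [if_true, if_neg hne, if_neg h0.symm] at h1
      norm_num at h1
    have h2 : (Finset.univ.image a).card = k := by
      rw [Finset.card_image_of_injective _ hinj, Finset.card_univ, Fintype.card_fin]
    rw [← h2]
    apply Finset.card_le_card
    intro x hx
    rw [Finset.mem_image] at hx
    obtain ⟨j, _, rfl⟩ := hx
    exact ha j
  obtain ⟨k, ⟨a, haA, hind⟩, hmax⟩ : ∃ k, (∃ a : Fin k → V, (∀ j, a j ∈ A) ∧ SInd ψ AF p k a) ∧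
      ¬ ∃ a : Fin (k + 1) → V, (∀ j, a j ∈ A) ∧ SInd ψ AF p (k + 1) a := by
    by_contra hcon
    push Not at hcon
    have hall : ∀ k, ∃ a : Fin k → V, (∀ j, a j ∈ A) ∧ SInd ψ AF p k a := by
      intro k
      induction k with
      | zero =>
        exact ⟨fun j => j.elim0, fun j => j.elim0, fun e _ j => j.elim0⟩
      | succ k ih =>
        obtain ⟨a, h1, h2⟩ := ih
        exact hcon k ⟨a, h1, h2⟩
    obtain ⟨a, h1, h2⟩ := hall (A.card + 1)
    have := hbound _ a h1 h2
    omega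
  have hW := SW_stable (ψ := ψ) (AF := AF) (p := p) (k := k) (a := a) hp.pos hF
    (fun j => hper _ (haA j))
  refine ⟨k, fun j i => (ψ ^ (i : ℕ)) (a j), ?_⟩
  refine ⟨hsub, fun j i => hpowA _ _ (haA j), fun j => hSF _ (haA j), hind, ?_⟩
  intro x hx
  apply mem_SW
  by_contra hxW
  apply hmax
  refine ⟨Fin.cons x a, ?_, ?_⟩
  · intro j
    refine Fin.cases ?_ (fun j => ?_) j
    · simpa using hx
    · simpa using haA j
  · intro e he
    have hSx : ∑ i : Fin p, (ψ ^ (i : ℕ)) x ∈ Sp AF := cone_sp (hSF x hx)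
    rw [Fin.sum_univ_succ] at he
    simp only [Fin.cons_zero, Fin.cons_succ] at he
    have h1 : ∑ j : Fin k, ∑ i, e j.succ i • (ψ ^ (i : ℕ)) (a j) ∈ SW ψ AF p k a :=
      SW_sum fun j i => e j.succ i
    have h2 : ∑ i, e 0 i • (ψ ^ (i : ℕ)) x ∈ SW ψ AF p k a := by
      have h3 := Submodule.sub_mem (SW ψ AF p k a) (Submodule.mem_sup_left he) h1
      rwa [add_sub_cancel_right] at h3
    have h3 := sel_const hp hW hxW (Submodule.mem_sup_left hSx) (e 0) h2
    have h4 : ∑ i, e 0 i • (ψ ^ (i : ℕ)) x ∈ Sp AF := by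
      have h5 : ∑ i, e 0 i • (ψ ^ (i : ℕ)) x =
          e 0 ⟨0, hp.pos⟩ • ∑ i : Fin p, (ψ ^ (i : ℕ)) x := by
        rw [Finset.smul_sum]
        exact Finset.sum_congr rfl fun i _ => by rw [h3 i ⟨0, hp.pos⟩]
      rw [h5]
      exact Submodule.smul_mem _ _ hSx
    have h5 : ∑ j : Fin k, ∑ i, e j.succ i • (ψ ^ (i : ℕ)) (a j) ∈ Sp AF := by
      have h6 := Submodule.sub_mem _ he h4
      simpa using h6
    have h6 := hind (fun j i => e j.succ i) h5
    intro j
    refine Fin.cases h3 (fun j => ?_) j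
    exact h6 j

end Pool.Agent.H17.EH
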